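import Pool.Agent.N549.SG.Stm

/-! Project HG, fourth round (helper549): rotations and caps (helper434). -/

set_option autoImplicit false

namespace Pool.Agent.N434.SG

open MeasureTheory Set
open Pool.Agent.N303.SH (E S sg rotE rot rot_mp rot_coe exists_rot S_norm)
open Pool.Agent.N549.SG

lemma mp_sig {n : ℕ} {f : S n → S n} (h : MeasurePreserving f (sg n) (sg n)) :
    MeasurePreserving f (sig n) (sig n) := by
  refine ⟨h.measurable, ?_⟩
  unfold sig
  rw [Measure.map_smul, h.map_eq]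

lemma sg_univ (c : ℕ) : sg (c + 2) univ ≠ 0 := by
  have h1 : sg (c + 2) univ = (Module.finrank ℝ (E (c + 2)) : ENNReal) * volume (Metric.ball (0 : E (c + 2)) 1) :=
    Measure.toSphere_apply_univ _
  rw [h1, finrank_euclideanSpace_fin]
  refine mul_ne_zero ?_ ?_
  · exact_mod_cast Nat.succ_ne_zero (c + 1)
  · exact (Metric.measure_ball_pos volume _ one_pos).ne'

lemma rot_all (c : ℕ) (x y : S (c + 2)) : ∃ T : S (c + 2) ≃ᵐ S (c + 2),
    MeasurePreserving T (sig (c + 2)) (sig (c + 2)) ∧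
    T x = y ∧ ∀ u v, inner ℝ (T u : E (c + 2)) (T v : E (c + 2)) = inner ℝ (u : E (c + 2)) (v : E (c + 2)) := by
  obtain ⟨T0, hT0⟩ := exists_rot x y
  exact ⟨(rotE T0).toMeasurableEquiv, mp_sig (rot_mp T0), hT0, fun u v => T0.inner_map_map _ _⟩

lemma prob (c : ℕ) : IsProbabilityMeasure (sig (c + 2)) := by
  refine ⟨?_⟩
  unfold sig
  rw [Measure.smul_apply, smul_eq_mul]
  exact ENNReal.inv_mul_cancel (sg_univ c) (measure_ne_top _ _)

theorem rotS : S_ROT := by
  intro c
  have := prob c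
  refine ⟨rot_all c, prob c, fun t x => ?_⟩
  let e0 : S (c + 2) := ⟨EuclideanSpace.single 0 (1 : ℝ), by simp⟩
  obtain ⟨T, hT, hTe, hTi⟩ := rot_all c e0 x
  have h1 : T ⁻¹' (near (c + 2) t x) = {y : S (c + 2) | t < (y : E (c + 2)) 0} := by
    ext u
    have h2 : inner ℝ (x : E (c + 2)) (T u : E (c + 2)) = (u : E (c + 2)) 0 := by
      rw [← hTe, hTi]
      show inner ℝ (EuclideanSpace.single 0 (1 : ℝ)) (u : E (c + 2)) = _
      rw [EuclideanSpace.inner_single_left]
      simp
    rw [mem_preimage]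
    unfold near
    rw [mem_ofPred_eq, mem_ofPred_eq, h2]
  rw [← hT.measure_preimage_equiv, h1]
  unfold capVol
  rw [ofReal_measureReal]

end Pool.Agent.N434.SG
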